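import Pool.Agent.W862.Kom.Action
import Pool.Agent.W862.Kom.SetSys
import Pool.Agent.H422R3.Kom.Final

/-!
# The Beck–Fiala problem for set systems with an elementary abelian `p`-group of symmetries
-/

namespace Pool.Agent.W862.Old.MP_e8ee11_co_PrimeExponent

open MulAction

/-- `H` is an abelian group in which every element has order `1` or `p`; it acts freely on the set
`M` of indices of the sets and freely on the set `V` of points, and the system `S : M → Finset V` is
invariant. -/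
def PrimeSymmetry (p : ℕ) (H M V : Type) [CommGroup H] [MulAction H M] [MulAction H V]
    (S : M → Finset V) : Prop :=
  (∀ a : H, a ^ p = 1) ∧ (∀ (a : H) (i : M), a • i = i → a = 1) ∧
    (∀ (a : H) (x : V), a • x = x → a = 1) ∧ ∀ (a : H) (i : M) (x : V), a • x ∈ S (a • i) ↔ x ∈ S i

/-- number of orbits of `H` on the set `V` of points -/
noncomputable def orbits (H V : Type) [Group H] [MulAction H V] : ℕ :=
  Nat.card (orbitRel.Quotient H V)

theorem result : ∀ (p : ℕ), p.Prime → ∀ (H M V : Type) [CommGroup H] [Finite H] [Fintype M]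
    [Fintype V] [MulAction H M] [MulAction H V] (S : M → Finset V) (t : ℕ),
    PrimeSymmetry p H M V S → 1 ≤ t → (∀ x : V, Nat.card {i : M // x ∈ S i} ≤ t) →
    ∃ χ : V → ℤ, (∀ x, χ x = 1 ∨ χ x = -1) ∧
      ∀ i, ((|∑ x ∈ S i, χ x| : ℤ) : ℝ) ≤
        400 * (1 + Real.log p) * Real.sqrt t * Real.sqrt (orbits H V) := by
  classical
  intro p hp H M V _ _ _ _ _ _ S t hs ht hdeg
  haveI : Fact p.Prime := ⟨hp⟩
  have hlog : 0 ≤ Real.log p := Real.log_natCast_nonneg p
  have hcol : ∀ x : V, ∑ i : M, (if x ∈ S i then (1 : ℝ) / Real.sqrt t else 0) ^ 2 ≤ 1 :=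
    fun x => Pool.Agent.W862.Kom.incidence_col S t ht x (hdeg x)
  have hex : ∃ ε : V → ℝ, (∀ j, ε j = 1 ∨ ε j = -1) ∧
      ∀ i, |∑ x, ε x * (if x ∈ S i then (1 : ℝ) / Real.sqrt t else 0)| ≤
        400 * (1 + Real.log p) * Real.sqrt (orbits H V) := by
    by_cases hp2 : p = 2
    · obtain ⟨⟨ε, hε, hb⟩, _⟩ := Pool.Agent.H422R3.Kom.final (H := H) (R := M) (C := V)
        (fun a => by have := hs.1 a; rwa [hp2, pow_two] at this) hs.2.1 hs.2.2.1
        (fun i x => if x ∈ S i then (1 : ℝ) / Real.sqrt t else 0)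
        (fun a i x => by simp only [hs.2.2.2 a i x]) hcol
      refine ⟨ε, hε, fun i => ?_⟩
      have h1 := hb i
      simp_rw [mul_comm (ε _)]
      refine h1.trans ?_
      have h2 : 0 ≤ Real.sqrt (orbits H V) := Real.sqrt_nonneg _
      calc Real.sqrt (orbits H V) = 1 * Real.sqrt (orbits H V) := (one_mul _).symm
        _ ≤ _ := mul_le_mul_of_nonneg_right (by linarith) h2
    · exact Pool.Agent.W862.Kom.action_form (p := p) (400 * (1 + Real.log p)) (by positivity)
        (fun d R _ a ha => Pool.Agent.W862.Kom.elemP hp2 a ha) H M V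
        (fun x i => if x ∈ S i then (1 : ℝ) / Real.sqrt t else 0) hs.1 hs.2.1 hs.2.2.1
        (fun a x i => by simp only [hs.2.2.2 a i x]) hcol
  obtain ⟨ε, hε, hb⟩ := hex
  obtain ⟨χ, h1, h2⟩ := Pool.Agent.W862.Kom.incidence_conv S t ht ε hε _ hb
  refine ⟨χ, h1, fun i => (h2 i).trans (le_of_eq ?_)⟩
  ring

end Pool.Agent.W862.Old.MP_e8ee11_co_PrimeExponent
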